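import Pool.Agent.helper58.BR.SpecN

/-!
# Project BR (MP_baa4d7_al), BOUND-R, row BPQ (the multiplicities are rational integers)
-/

set_option autoImplicit false

namespace Pool.Agent.BR

open Pool.Agent.helper58.DC Pool.Agent.DI Pool.Agent.GR Pool.Agent.OB Pool.Agent.DR Pool.Agent.FI Pool.Agent.FI3 Pool.Agent.FI4 Pool.Agent.LE

theorem BPQ (hBPM : BPM_stmt) (hPPL : PPL_stmt) (hCIN : CIN_stmt) (hPRI : PRI_stmt) (hPDV : PDV_stmt) : BPQ_stmt := by
  classical
  intro p M hM G _ _ D x θ χ lo l ψ hψ ψ' hψ'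
  have hp := hM.pr
  have hfact : Fact p.Prime := ⟨hp⟩
  have hpg : IsPGroup p D := lo.rt.dfa.pgrp
  obtain ⟨N, hN⟩ := IsPGroup.iff_card.1 hpg
  have iF : Fintype D := Fintype.ofFinite D
  have hn : 0 < Nat.card D := Nat.card_pos
  have hζ := Complex.isPrimitiveRoot_exp (Nat.card D) hn.ne'
  generalize Complex.exp (2 * Real.pi * Complex.I / (Nat.card D : ℂ)) = ζ at hζ
  -- the data for each `u`
  have hP : ∀ u : D, ∃ P : Polynomial ℤ, ∀ s : ℕ, ¬ p ∣ s →
      (Nat.card D : ℂ) * PP p M θ ψ ψ' ((u : G) ^ s) = Polynomial.aeval (ζ ^ s) P := by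
    intro u
    refine hPPL p M hM G D x θ χ lo u u.2 ψ hψ.1 ψ' hψ'.1 (Nat.card D) hn ?_ ζ hζ
    have h1 : u ^ Nat.card D = 1 := pow_card_eq_one'
    have h2 := congrArg (Subtype.val : D → G) h1
    exact h2
  choose P hP using hP
  obtain ⟨_, hci⟩ := hCIN p M hp G D θ lo.rt.com hpg
  have hk : ∀ u : D, ∃ k : ℕ, ci M D θ u = (k : ℂ) := fun u => (hci u u.2).1
  choose k hk using hk
  have he : ∀ u : D, ∃ e : ℕ, ζ ^ e = (l u : ℂ) := by
    intro u
    have h1 : ((l u : ℂˣ) : ℂ) ^ Nat.card D = 1 := by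
      rw [← Units.val_pow_eq_pow_val, ← map_pow, pow_card_eq_one', map_one, Units.val_one]
    have : NeZero (Nat.card D) := ⟨hn.ne'⟩
    obtain ⟨e, _, he⟩ := hζ.eq_pow_of_pow_eq_one h1
    exact ⟨e, he⟩
  choose e he using he
  let Q : Polynomial ℤ := ∑ u : D, Polynomial.C (k u : ℤ) * Polynomial.X ^ e u * P u
  let F : D → ℂ := fun u => ci M D θ u * (l u : ℂ) * ((Nat.card D : ℂ) * PP p M θ ψ ψ' u)
  have hQ : ∀ s : ℕ, ¬ p ∣ s → Polynomial.aeval (ζ ^ s) Q = ∑ u : D, F (u ^ s) := by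
    intro s hs
    show Polynomial.aeval (ζ ^ s) (∑ u : D, Polynomial.C (k u : ℤ) * Polynomial.X ^ e u * P u) = _
    rw [map_sum]
    refine Finset.sum_congr rfl fun u _ => ?_
    rw [map_mul, map_mul, map_pow, Polynomial.aeval_X, Polynomial.aeval_C, ← hP u s hs]
    show _ = ci M D θ ((u ^ s : D) : G) * (l (u ^ s) : ℂ) * ((Nat.card D : ℂ) * PP p M θ ψ ψ' ((u ^ s : D) : G))
    have h1 : ((u ^ s : D) : G) = (u : G) ^ s := rfl
    rw [h1, (hci u u.2).2 s hs, hk u, map_pow, Units.val_pow_eq_pow_val, ← he u, ← pow_mul, ← pow_mul, mul_comm s (e u)]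
    congr 2
  have hnl : (Nat.card D : ℂ) * nl p M D θ l ψ ψ' = ∑ u : D, F u := by
    unfold nl
    rw [finsum_eq_sum_of_fintype, Finset.mul_sum]
    refine Finset.sum_congr rfl fun u _ => ?_
    show _ = ci M D θ u * (l u : ℂ) * ((Nat.card D : ℂ) * PP p M θ ψ ψ' u)
    ring
  have h1p : ¬ p ∣ 1 := hp.one_lt.ne' ∘ Nat.dvd_one.1
  have hQ1 : Polynomial.aeval ζ Q = ∑ u : D, F u := by
    have h1 := hQ 1 h1p
    rw [pow_one] at h1
    rw [h1]
    exact Finset.sum_congr rfl fun u _ => by rw [pow_one]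
  obtain ⟨a, ha⟩ := hPRI (Nat.card D) hn Q ζ hζ (by
    intro s hs
    by_cases h1 : Nat.card D = 1
    · rw [h1] at hζ
      have h2 : ζ = 1 := by simpa using hζ.pow_eq_one
      rw [h2, one_pow]
    · have h2 : p ∣ Nat.card D := by
        rw [hN] at h1 ⊢
        refine dvd_pow_self p ?_
        rintro rfl
        exact h1 (pow_zero p)
      have h3 : ¬ p ∣ s := by
        intro h4
        have h5 := Nat.dvd_gcd h4 h2
        rw [Nat.Coprime] at hs
        rw [hs] at h5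
        exact h1p h5
      rw [hQ s h3, hQ1]
      exact Fintype.sum_equiv (powCoprime hs.symm) (fun u => F (u ^ s)) F (fun u => rfl))
  refine hPDV p M hM N _ a (hBPM p M hM G D x θ χ lo l ψ hψ ψ' hψ') ?_
  rw [← ha, hQ1, ← hnl, hN]
  push_cast
  rfl

end Pool.Agent.BR
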