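import Pool.Agent.helper24.BR.SpecA

/-!
# Project BR (MP_baa4d7_al), row REP (the block idempotents)
-/

set_option autoImplicit false

namespace Pool.Agent.BR

open Pool.Agent.helper58.DC Pool.Agent.DI Pool.Agent.GR Pool.Agent.OB Pool.Agent.DR Pool.Agent.FI Pool.Agent.FI3 Pool.Agent.FI4 Pool.Agent.LE

theorem REP_sing {G : Type} [Group G] (K : Subgroup G) (η : G → ℂ) (x : G) :
    eS K {η} x = η 1 * η x⁻¹ / Nat.card K := by
  unfold eS
  rw [finsum_mem_singleton]

theorem REP (hB2 : B2_stmt) (hBLE : BLE_stmt) : REP_stmt := by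
  classical
  intro p M hM G _ _ K
  have hfin : (IrrOn K).Finite := (hB2 G K).1
  have hBl : ∀ θ : G → ℂ, Bq M K K θ = Bl M K θ := fun θ => rfl
  have h2 : ∀ e ∈ BB M K, rep M K e ∈ IrrOn K ∧ eS K (Bl M K (rep M K e)) = e := by
    intro e he
    have he' : ∃ η ∈ IrrOn K, eS K (Bl M K η) = e := he
    unfold rep
    rw [dif_pos he']
    exact he'.choose_spec
  have h3 : ∀ η ∈ IrrOn K, ∀ η' ∈ IrrOn K, (eS K (Bl M K η) = eS K (Bl M K η') ↔ SB M K η η') := by
    intro η hη η' hη'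
    constructor
    · intro h
      by_contra hn
      obtain ⟨_, _, _, _, h5, _, _, _⟩ := hBLE p M hM G K K le_rfl η
      obtain ⟨_, _, _, _, _, h6, _, _⟩ := hBLE p M hM G K K le_rfl η'
      have e1 : cc η (eS K (Bl M K η)) = 1 := h5 η ⟨hη, SB.refl K η⟩
      have e2 : cc η (eS K (Bl M K η')) = 0 := h6 η hη (fun h7 => hn h7.2)
      rw [h, e2] at e1
      exact zero_ne_one e1
    · intro h
      have e1 : Bl M K η = Bl M K η' := by
        ext ψ
        exact ⟨fun h7 => ⟨h7.1, h7.2.trans h⟩, fun h7 => ⟨h7.1, h7.2.trans h.symm⟩⟩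
      rw [e1]
  have h1 : (BB M K).Finite := by
    have e1 : BB M K = (fun η => eS K (Bl M K η)) '' IrrOn K := by
      ext e
      exact ⟨fun ⟨η, h, h'⟩ => ⟨η, h, h'⟩, fun ⟨η, h, h'⟩ => ⟨η, h, h'⟩⟩
    rw [e1]
    exact hfin.image _
  refine ⟨h1, h2, h3, ?_, ?_⟩
  · rintro e ⟨η, hη, rfl⟩
    obtain ⟨_, h5, h6, h7, _, _, _, _⟩ := hBLE p M hM G K K le_rfl η
    exact ⟨h5, h5.2, h6, h7⟩
  · intro c hc x
    rw [finsum_mem_eq_finite_toFinset_sum _ h1, finsum_mem_eq_finite_toFinset_sum _ hfin,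
      ← Finset.sum_fiberwise_of_maps_to (s := hfin.toFinset) (t := h1.toFinset) (g := fun η => eS K (Bl M K η))
        (fun η hη => by
          rw [Set.Finite.mem_toFinset] at hη ⊢
          exact ⟨η, hη, rfl⟩)]
    refine Finset.sum_congr rfl fun e he => ?_
    rw [Set.Finite.mem_toFinset] at he
    obtain ⟨h4, h5⟩ := h2 e he
    have hBfin : (Bl M K (rep M K e)).Finite := hfin.subset fun ψ hψ => hψ.1
    have e1 : hfin.toFinset.filter (fun η => eS K (Bl M K η) = e) = hBfin.toFinset := by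
      ext ψ
      rw [Finset.mem_filter, Set.Finite.mem_toFinset, Set.Finite.mem_toFinset]
      constructor
      · rintro ⟨h6, h7⟩
        refine ⟨h6, (h3 ψ h6 _ h4).1 ?_⟩
        rw [h7, h5]
      · rintro ⟨h6, h7⟩
        exact ⟨h6, by rw [(h3 ψ h6 _ h4).2 h7, h5]⟩
    rw [e1]
    have e2 : e x = ∑ ψ ∈ hBfin.toFinset, eS K {ψ} x := by
      rw [← congrFun h5 x]
      unfold eS
      rw [finsum_mem_eq_finite_toFinset_sum _ hBfin, Finset.sum_div]
      refine Finset.sum_congr rfl fun ψ _ => ?_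
      rw [finsum_mem_singleton]
    rw [e2, Finset.mul_sum]
    refine Finset.sum_congr rfl fun ψ hψ => ?_
    rw [Set.Finite.mem_toFinset] at hψ
    rw [hc ψ hψ.1 _ h4 hψ.2]

end Pool.Agent.BR
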